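import Mathlib
import Pool.Agent.H31.Theta2

set_option autoImplicit false
open Pool.Agent.H31 Pool.Agent.H31.SatDefs

namespace Pool.Agent.Results.MP_0fee77_co.Theta

theorem result : ¬ ∀ s : ℕ, 4 ≤ s → ∃ r₀ : ℕ, ∀ r ≥ r₀, ∃ N : ℕ, ∀ n ≥ N,
    sat n (Set.Icc s r) = sat n (Set.Ici s) := by
  intro h
  obtain ⟨r, h⟩ := h 4 le_rfl
  obtain ⟨N, h⟩ := h (2 * (r + 5) + 1) (by omega)
  have a := h ((N + 2) * (r + 5) + 2) (by nlinarith)
  have b := Theta2.sat_upper (m := N + 2) (l := r + 5) (by omega) (by omega)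
  have c := Theta.sat_lower (n := (N + 2) * (r + 5) + 2) (by omega)
  rw [a] at b
  nlinarith [Nat.zero_le (N * r)]

end Pool.Agent.Results.MP_0fee77_co.Theta
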